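import Pool.Agent.H92.EQ.TF2

/-!
# Rows P5 and P7 of the board of MP_75a732_an
-/

set_option autoImplicit false

namespace Pool.Agent.H84.EQ

open scoped BigOperators ComplexConjugate ContDiff ComplexOrder
open MeasureTheory
open Pool.Agent.H92.EQ

/-- the difference of two potentials is a function on projective space -/
theorem hom0_sub (hL1 : T_L1) {N : ℕ} {v v' : (Fin N → ℂ) → ℝ} (hv : Pot v) (hv' : Pot v') :
    Hom0 (fun z => 1 * v z + (-1) * v' z) := by
  have h1 := (hL1 N 1 1 1 (-1) v v').1 ((hL1 N 1 1 1 1 v v).2.2.1 hv)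
    ((hL1 N 1 1 1 1 v' v').2.2.1 hv')
  have h2 : (1 : ℝ) * 1 + (-1) * 1 = 0 := by norm_num
  rw [h2] at h1
  exact ((hL1 N 1 1 1 1 (fun z => 1 * v z + (-1) * v' z) v).2.1).2 h1

theorem pot_lh (hL1 : T_L1) {N : ℕ} {v : (Fin N → ℂ) → ℝ} (hv : Pot v) : LH 1 v :=
  (hL1 N 1 1 1 1 v v).2.2.1 hv

theorem upd_pot {N q : ℕ} {u : Fin q → (Fin N → ℂ) → ℝ} (hu : ∀ j, Pot (u j)) (j : Fin q)
    {w : (Fin N → ℂ) → ℝ} (hw : Pot w) : ∀ i, Pot (Function.update u j w i) := by
  intro i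
  by_cases h : i = j
  · rw [h, Function.update_self]; exact hw
  · rw [Function.update_of_ne h]; exact hu i

theorem pf_P7 (hL1 : T_L1) (hS6 : T_S6) (hP1 : T_P1) (hP2 : T_P2) (hP3 : T_P3) : T_P7 := by
  intro N p q S u j w w' v v' B hN hS hu hw hw' hv hv' hB
  have hlu : ∀ i, LH ((fun _ : Fin q => (1 : ℝ)) i) (u i) := fun i => pot_lh hL1 (hu i)
  have hsplit : ∀ (φ a b : (Fin N → ℂ) → ℝ), ContinuousOn φ {0}ᶜ → Pot a → Pot b →
      pair φ S (Function.update u j (fun z => 1 * a z + (-1) * b z)) =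
        pair φ S (Function.update u j a) - pair φ S (Function.update u j b) := by
    intro φ a b hφ ha hb
    have hint : ∀ c : (Fin N → ℂ) → ℝ, Pot c →
        IntegrableOn (fun z => φ z * Q S (Function.update u j c) z)
          {z : Fin N → ℂ | 0 ≤ ell z ∧ ell z < 1} := fun c hc =>
      (hP1 N p q S (Function.update u j c) (fun _ => 1) hN hS
        (fun i => pot_lh hL1 (upd_pot hu j hc i))).2 φ hφ
    have := (hP2 N p q S u (fun _ => 1) j a b 1 1 1 (-1) φ hN hS hlu (pot_lh hL1 ha)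
      (pot_lh hL1 hb) (hint a ha) (hint b hb)).1
    rw [this]
    ring
  have hF := hom0_sub hL1 hv hv'
  have hG := hom0_sub hL1 hw hw'
  have e1 : (fun z => v z - v' z) = fun z => 1 * v z + (-1) * v' z := by
    funext z
    ring
  rw [e1, ← hsplit _ w w' hF.smooth.continuousOn hw hw',
    hS6 N p q S u (fun _ => 1) j _ _ hN hS hlu hF hG,
    hsplit _ v v' hG.smooth.continuousOn hv hv']
  have hb : ∀ z : Fin N → ℂ, z ≠ 0 → |1 * w z + (-1) * w' z| ≤ B := by
    intro z hz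
    have h1 : 1 * w z + (-1) * w' z = w z - w' z := by ring
    rw [h1]
    exact hB z hz
  have b1 := (hP3 N p q S _ hN hS (upd_pot hu j hv)).2.2.2 (fun z => 1 * w z + (-1) * w' z) B hb
  have b2 := (hP3 N p q S _ hN hS (upd_pot hu j hv')).2.2.2 (fun z => 1 * w z + (-1) * w' z) B hb
  refine (abs_sub _ _).trans ?_
  linarith

theorem wd_smul {ι : Type} [Fintype ι] [DecidableEq ι] (c : ℂ) (a : ι) (f : (ι → ℂ) → ℂ)
    (z : ι → ℂ) : wd a (fun w => c * f w) z = c * wd a f z := by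
  unfold wd
  have h : fderiv ℝ (fun w => c * f w) z = c • fderiv ℝ f z := by
    have h1 : (fun w => c * f w) = c • f := rfl
    rw [h1]
    by_cases hc : c = 0
    · rw [hc]; simp
      exact (zero_smul ℂ (fderiv ℝ f z)).symm
    · have : Invertible c := invertibleOfNonzero hc
      exact fderiv_const_smul_of_invertible c
  rw [h]
  simp only [_root_.smul_apply, smul_eq_mul]
  ring

theorem wdb_smul {ι : Type} [Fintype ι] [DecidableEq ι] (c : ℂ) (a : ι) (f : (ι → ℂ) → ℂ)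
    (z : ι → ℂ) : wdb a (fun w => c * f w) z = c * wdb a f z := by
  unfold wdb
  have h : fderiv ℝ (fun w => c * f w) z = c • fderiv ℝ f z := by
    have h1 : (fun w => c * f w) = c • f := rfl
    rw [h1]
    by_cases hc : c = 0
    · rw [hc]; simp
      exact (zero_smul ℂ (fderiv ℝ f z)).symm
    · have : Invertible c := invertibleOfNonzero hc
      exact fderiv_const_smul_of_invertible c
  rw [h]
  simp only [_root_.smul_apply, smul_eq_mul]
  ring

theorem hessR_smul {ι : Type} [Fintype ι] [DecidableEq ι] (c : ℝ) (f : (ι → ℂ) → ℝ)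
    (z : ι → ℂ) : hessR (fun w => c * f w) z = (c : ℂ) • hessR f z := by
  unfold hessR hess
  funext a b
  have h1 : (fun w => wdb b (fun w => ((c * f w : ℝ) : ℂ)) w) =
      fun w => (c : ℂ) * wdb b (fun w => (f w : ℂ)) w := by
    funext w
    rw [← wdb_smul]
    congr 1
    funext w'
    push_cast
    rfl
  rw [h1, wd_smul]
  rfl

theorem Q_smul {N p q : ℕ} (S : Form (Fin N) p) (c : ℝ) (u : Fin q → (Fin N → ℂ) → ℝ)
    (z : Fin N → ℂ) : Q S (fun j z => c * u j z) z = c ^ q * Q S u z := by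
  unfold Q mixD
  have h : ∀ e e' : (Fin p ⊕ Fin (q + 1)) ≃ Fin N,
      ∏ j, (Fin.snoc (α := fun _ => Matrix (Fin N) (Fin N) ℂ)
        (fun j => hessR (fun z => c * u j z) z) (Rad z) : Fin (q + 1) → Matrix (Fin N) (Fin N) ℂ) j
          (e (Sum.inr j)) (e' (Sum.inr j)) =
      ((c ^ q : ℝ) : ℂ) * ∏ j, (Fin.snoc (α := fun _ => Matrix (Fin N) (Fin N) ℂ)
        (fun j => hessR (u j) z) (Rad z) : Fin (q + 1) → Matrix (Fin N) (Fin N) ℂ) j
          (e (Sum.inr j)) (e' (Sum.inr j)) := by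
    intro e e'
    rw [Fin.prod_univ_castSucc, Fin.prod_univ_castSucc]
    simp only [Fin.snoc_castSucc, Fin.snoc_last]
    rw [← mul_assoc]
    congr 1
    rw [Finset.prod_congr rfl fun j _ => by rw [hessR_smul]]
    simp only [Matrix.smul_apply, smul_eq_mul]
    rw [Finset.prod_mul_distrib, Finset.prod_const, Finset.card_univ, Fintype.card_fin]
    push_cast
    rfl
  have h2 : (∑ e : (Fin p ⊕ Fin (q + 1)) ≃ Fin N, ∑ e' : (Fin p ⊕ Fin (q + 1)) ≃ Fin N,
      ((Equiv.Perm.sign (e.trans e'.symm) : ℤ) : ℂ) *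
        S z (fun i => e (Sum.inl i)) (fun i => e' (Sum.inl i)) *
        ∏ j, (Fin.snoc (α := fun _ => Matrix (Fin N) (Fin N) ℂ)
        (fun j => hessR (fun z => c * u j z) z) (Rad z) : Fin (q + 1) → Matrix (Fin N) (Fin N) ℂ) j
          (e (Sum.inr j)) (e' (Sum.inr j))) =
      ((c ^ q : ℝ) : ℂ) * ∑ e : (Fin p ⊕ Fin (q + 1)) ≃ Fin N,
        ∑ e' : (Fin p ⊕ Fin (q + 1)) ≃ Fin N,
      ((Equiv.Perm.sign (e.trans e'.symm) : ℤ) : ℂ) *
        S z (fun i => e (Sum.inl i)) (fun i => e' (Sum.inl i)) *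
        ∏ j, (Fin.snoc (α := fun _ => Matrix (Fin N) (Fin N) ℂ)
        (fun j => hessR (u j) z) (Rad z) : Fin (q + 1) → Matrix (Fin N) (Fin N) ℂ) j
          (e (Sum.inr j)) (e' (Sum.inr j)) := by
    rw [Finset.mul_sum]
    refine Finset.sum_congr rfl fun e _ => ?_
    rw [Finset.mul_sum]
    refine Finset.sum_congr rfl fun e' _ => ?_
    rw [h e e']
    ring
  rw [h2, Complex.re_ofReal_mul]

theorem Q_form_smul {N p q : ℕ} (S : Form (Fin N) p) (c : ℝ) (u : Fin q → (Fin N → ℂ) → ℝ)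
    (z : Fin N → ℂ) : Q (fun z I J => (c : ℂ) * S z I J) u z = c * Q S u z := by
  unfold Q mixD
  rw [← Complex.re_ofReal_mul]
  congr 1
  rw [Finset.mul_sum]
  refine Finset.sum_congr rfl fun e _ => ?_
  rw [Finset.mul_sum]
  refine Finset.sum_congr rfl fun e' _ => ?_
  ring

theorem pf_P5 (hL1 : T_L1) (hL3 : T_L3) (hD5 : T_D5) (hD12 : T_D12) (hG4 : T_G4) (hP3 : T_P3) :
    T_P5 := by
  intro N p q D S hN hS
  have hell : Pot (ell : (Fin N → ℂ) → ℝ) := (hL3 N).1
  have key : ∀ (D : ℕ) (Φ : Fin N → MvPolynomial (Fin N) ℂ), 1 ≤ D → IsH D Φ →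
      mass q (pull Φ S) = (D : ℝ) ^ p * mass q S := by
    intro D Φ hD hΦ
    have hD0 : (0 : ℝ) < D := by exact_mod_cast hD
    have hpull := hD5 N p D Φ S hD hΦ hS
    have h1 := (hP3 N p q (pull Φ S) (fun _ z => (1 / (D : ℝ)) * ell (ev Φ z)) hN hpull
      (fun _ => (hL3 N).2.2 D Φ ell hD hΦ hell)).2.2.1
    have h2 := hG4 N p q D Φ S (fun _ => ell) (fun _ => 1) (fun _ => 1) 1 hN hD hΦ hS
      (fun _ => pot_lh hL1 hell) measurable_const (fun _ => by simp) (fun _ _ _ _ => rfl)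
    have h3 : pair (fun _ => 1) (pull Φ S)
        (fun (_ : Fin q) z => (1 / (D : ℝ)) * ell (ev Φ z)) =
        (1 / (D : ℝ)) ^ q * pair (fun _ => 1) (pull Φ S) (fun (_ : Fin q) z => ell (ev Φ z)) := by
      unfold pair Iint
      rw [← integral_const_mul]
      refine integral_congr_ae (Filter.Eventually.of_forall fun z => ?_)
      show (1 : ℝ) * Q (pull Φ S) (fun (_ : Fin q) z => (1 / (D : ℝ)) * ell (ev Φ z)) z =
        (1 / (D : ℝ)) ^ q * (1 * Q (pull Φ S) (fun (_ : Fin q) z => ell (ev Φ z)) z)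
      rw [Q_smul]
      ring
    rw [← h1, h3, h2]
    have h4 : N - 1 = p + q := by omega
    rw [h4]
    show (1 / (D : ℝ)) ^ q * ((D : ℝ) ^ (p + q) * mass q S) = (D : ℝ) ^ p * mass q S
    rw [pow_add, one_div, inv_pow]
    field_simp
  refine ⟨key D, ?_, ?_⟩
  · intro F n hD hF
    obtain ⟨h1, -⟩ := hD12 N D F hD hF 0 n
    have h2 := key (D ^ n) (iter F n) (Nat.one_le_pow _ _ hD) h1
    have hD0 : (0 : ℝ) < D := by exact_mod_cast hD
    have h3 : mass q (Sn F D n S) = ((D : ℝ) ^ (p * n))⁻¹ * mass q (pull (iter F n) S) := by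
      unfold mass pair Iint
      rw [← integral_const_mul]
      refine integral_congr_ae (Filter.Eventually.of_forall fun z => ?_)
      have h5 : Sn F D n S = fun z I J => ((((D : ℝ) ^ (p * n))⁻¹ : ℝ) : ℂ) *
          pull (iter F n) S z I J := by
        funext z I J
        unfold Sn
        push_cast
        rfl
      show (1 : ℝ) * Q (Sn F D n S) (fun (_ : Fin q) => ell) z =
        ((D : ℝ) ^ (p * n))⁻¹ * (1 * Q (pull (iter F n) S) (fun (_ : Fin q) => ell) z)
      rw [h5, Q_form_smul]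
      ring
    rw [h3, h2]
    push_cast
    rw [← pow_mul, mul_comm n p]
    field_simp
  · exact (hP3 N p q S (fun _ => ell) hN hS (fun _ => hell)).2.1 _ (fun _ _ => zero_le_one)

end Pool.Agent.H84.EQ
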