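import Pool.Agent.H92.EQ.TF1

/-!
# Rows A7 and A10 of the board of MP_75a732_an
-/

set_option autoImplicit false

namespace Pool.Agent.H84.EQ

open scoped BigOperators ComplexConjugate
open Pool.Agent.H92.EQ

/-- a sum over the equivalences which changes sign under an involution -/
theorem sum_neg {α : Type} [Fintype α] (Φ : α ≃ α) (F : α → ℂ) (h : ∀ e, F (Φ e) = - F e) :
    ∑ e, F e = 0 := by
  have h1 : ∑ e, F (Φ e) = ∑ e, F e := Equiv.sum_comp Φ F
  rw [Finset.sum_congr rfl fun e _ => h e, Finset.sum_neg_distrib] at h1
  linear_combination (-1 / 2 : ℂ) * h1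

section

variable {σ ι : Type} [Fintype σ] [DecidableEq σ] [Fintype ι] [DecidableEq ι]

/-- composition on the left with a permutation of the slots -/
def preE (τ : Equiv.Perm σ) : (σ ≃ ι) ≃ (σ ≃ ι) where
  toFun e := τ.trans e
  invFun e := τ.symm.trans e
  left_inv e := by ext s; simp
  right_inv e := by ext s; simp

/-- composition with a permutation of the values -/
def postE (τ : Equiv.Perm ι) : (σ ≃ ι) ≃ (σ ≃ ι) where
  toFun e := e.trans τ
  invFun e := e.trans τ.symm
  left_inv e := by ext s; simp
  right_inv e := by ext s; simp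

/-- alternating sums of functions killed by a vector -/
theorem alt_kill (T : (σ → ι) → ℂ) (v : ι → ℂ) (hv : v ≠ 0)
    (h : ∀ (f : σ → ι) (s : σ), ∑ a, v a * T (Function.update f s a) = 0) (e' : σ ≃ ι) :
    ∑ e : σ ≃ ι, ((Equiv.Perm.sign (e.trans e'.symm) : ℤ) : ℂ) * T e = 0 := by
  obtain ⟨k, hk⟩ : ∃ k, v k ≠ 0 := by
    by_contra hcon
    apply hv
    funext k
    by_contra h0
    exact hcon ⟨k, h0⟩
  have h1 : ∀ e : σ ≃ ι, v k * T e =
      - ∑ a ∈ Finset.univ.erase k, v a * T (Function.update e (e.symm k) a) := by
    intro e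
    have h2 := h e (e.symm k)
    rw [← Finset.add_sum_erase _ _ (Finset.mem_univ k)] at h2
    have h3 : Function.update (e : σ → ι) (e.symm k) k = e := by
      rw [Function.update_eq_self_iff]
      simp
    rw [h3] at h2
    linear_combination h2
  have h4 : v k * ∑ e : σ ≃ ι, ((Equiv.Perm.sign (e.trans e'.symm) : ℤ) : ℂ) * T e = 0 := by
    rw [Finset.mul_sum]
    have h5 : ∀ e : σ ≃ ι, v k * (((Equiv.Perm.sign (e.trans e'.symm) : ℤ) : ℂ) * T e) =
        - ∑ a ∈ Finset.univ.erase k, v a * (((Equiv.Perm.sign (e.trans e'.symm) : ℤ) : ℂ) *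
          T (Function.update e (e.symm k) a)) := by
      intro e
      rw [mul_left_comm, h1 e, mul_neg, Finset.mul_sum]
      congr 1
      exact Finset.sum_congr rfl fun a _ => by ring
    rw [Finset.sum_congr rfl fun e _ => h5 e, Finset.sum_neg_distrib, Finset.sum_comm, neg_eq_zero]
    refine Finset.sum_eq_zero fun a ha => ?_
    have hak : a ≠ k := Finset.ne_of_mem_erase ha
    rw [← Finset.mul_sum]
    refine mul_eq_zero_of_right _ (sum_neg (postE (Equiv.swap k a)) _ fun e => ?_)
    have e1 : Equiv.Perm.sign ((postE (Equiv.swap k a) e).trans e'.symm) =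
        - Equiv.Perm.sign (e.trans e'.symm) := by
      have e2 : ((postE (Equiv.swap k a) e).trans e'.symm : Equiv.Perm σ) =
          (e.trans e'.symm).trans (e'.trans ((Equiv.swap k a).trans e'.symm)) := by
        ext s
        simp [postE]
      rw [e2, Equiv.Perm.sign_trans]
      have e3 : Equiv.Perm.sign (e'.trans ((Equiv.swap k a).trans e'.symm)) = -1 := by
        have e4 : (e'.trans ((Equiv.swap k a).trans e'.symm) : Equiv.Perm σ) =
            Equiv.swap (e'.symm k) (e'.symm a) := by
          ext s
          simp only [Equiv.trans_apply, Equiv.swap_apply_def]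
          by_cases hs1 : e' s = k
          · have : s = e'.symm k := by rw [← hs1]; simp
            simp [this]
          · by_cases hs2 : e' s = a
            · have : s = e'.symm a := by rw [← hs2]; simp
              simp [this, hak]
            · have h6 : s ≠ e'.symm k := fun h => hs1 (by rw [h]; simp)
              have h7 : s ≠ e'.symm a := fun h => hs2 (by rw [h]; simp)
              simp [hs1, hs2, h6, h7]
        rw [e4, Equiv.Perm.sign_swap]
        intro h8
        exact hak (e'.symm.injective h8).symm
      rw [e3]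
      simp
    have e5 : Function.update (postE (Equiv.swap k a) e : σ → ι)
        ((postE (Equiv.swap k a) e).symm k) a = Function.update e (e.symm k) a := by
      funext s
      by_cases hs : s = e.symm k
      · rw [hs, Function.update_self]
        by_cases hs' : e.symm k = (postE (Equiv.swap k a) e).symm k
        · rw [hs', Function.update_self]
        · rw [Function.update_of_ne hs']
          simp [postE]
      · rw [Function.update_of_ne hs]
        have hs1 : e s ≠ k := fun h => hs (by rw [← h]; simp)
        by_cases hs2 : e s = a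
        · have : s = (postE (Equiv.swap k a) e).symm k := by
            rw [← hs2]
            simp [postE]
          rw [this, Function.update_self, ← this, hs2]
        · have : s ≠ (postE (Equiv.swap k a) e).symm k := by
            intro h
            apply hs2
            rw [h]
            simp [postE]
          rw [Function.update_of_ne this]
          simp [postE, Equiv.swap_apply_of_ne_of_ne hs1 hs2]
    rw [e1, e5]
    push_cast
    ring
  exact (mul_eq_zero.1 h4).resolve_left hk

end

theorem pf_A7 : T_A7 := by
  intro ι _ _ p m S H v hv hS hH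
  unfold mixD
  rw [Finset.sum_comm]
  refine Finset.sum_eq_zero fun e' _ => ?_
  have := alt_kill (σ := Fin p ⊕ Fin m) (fun f => S (fun i => f (Sum.inl i))
    (fun i => e' (Sum.inl i)) * ∏ j, H j (f (Sum.inr j)) (e' (Sum.inr j))) v hv ?_ e'
  · rw [← this]
    exact Finset.sum_congr rfl fun e _ => by ring
  · intro f s
    rcases s with i | j
    · have h1 : ∀ a, (fun i' => Function.update f (Sum.inl i) a (Sum.inl i')) =
          Function.update (fun i' => f (Sum.inl i')) i a := by
        intro a
        funext i'
        by_cases h : i' = i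
        · rw [h, Function.update_self, Function.update_self]
        · rw [Function.update_of_ne h, Function.update_of_ne (fun hh => h (Sum.inl.inj hh))]
      have h2 : ∀ a, ∏ j, H j (Function.update f (Sum.inl i) a (Sum.inr j)) (e' (Sum.inr j)) =
          ∏ j, H j (f (Sum.inr j)) (e' (Sum.inr j)) := by
        intro a
        refine Finset.prod_congr rfl fun j _ => ?_
        rw [Function.update_of_ne (by simp)]
      rw [Finset.sum_congr rfl fun a _ => by rw [h1 a, h2 a, ← mul_assoc], ← Finset.sum_mul,
        hS _ _ i, zero_mul]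
    · have h1 : ∀ a, (fun i' => Function.update f (Sum.inr j) a (Sum.inl i')) =
          (fun i' => f (Sum.inl i')) := by
        intro a
        funext i'
        rw [Function.update_of_ne (by simp)]
      have h2 : ∀ a, ∏ j', H j' (Function.update f (Sum.inr j) a (Sum.inr j')) (e' (Sum.inr j')) =
          H j a (e' (Sum.inr j)) *
            ∏ j' ∈ Finset.univ.erase j, H j' (f (Sum.inr j')) (e' (Sum.inr j')) := by
        intro a
        rw [← Finset.mul_prod_erase _ _ (Finset.mem_univ j), Function.update_self]
        congr 1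
        refine Finset.prod_congr rfl fun j' hj' => ?_
        rw [Function.update_of_ne]
        intro hh
        exact Finset.ne_of_mem_erase hj' (Sum.inr.inj hh)
      have h3 : ∀ a, v a * (S (fun i' => Function.update f (Sum.inr j) a (Sum.inl i'))
          (fun i' => e' (Sum.inl i')) *
          ∏ j', H j' (Function.update f (Sum.inr j) a (Sum.inr j')) (e' (Sum.inr j'))) =
          v a * H j a (e' (Sum.inr j)) * (S (fun i' => f (Sum.inl i')) (fun i' => e' (Sum.inl i')) *
            ∏ j' ∈ Finset.univ.erase j, H j' (f (Sum.inr j')) (e' (Sum.inr j'))) := by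
        intro a
        rw [h1 a, h2 a]
        ring
      rw [Finset.sum_congr rfl fun a _ => h3 a, ← Finset.sum_mul, hH j, zero_mul]

theorem pf_A10 : T_A10 := by
  intro ι _ _ p m S H j j' x y y' hjj
  have hsw : (Sum.inr j : Fin p ⊕ Fin m) ≠ Sum.inr j' := fun h => hjj (Sum.inr.inj h)
  have hsign : Equiv.Perm.sign (Equiv.swap (Sum.inr j : Fin p ⊕ Fin m) (Sum.inr j')) = -1 :=
    Equiv.Perm.sign_swap hsw
  have hinl : ∀ i : Fin p, Equiv.swap (Sum.inr j : Fin p ⊕ Fin m) (Sum.inr j') (Sum.inl i) =
      Sum.inl i := fun i => Equiv.swap_apply_of_ne_of_ne (by simp) (by simp)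
  have hinr : ∀ i : Fin m, i ≠ j → i ≠ j' →
      Equiv.swap (Sum.inr j : Fin p ⊕ Fin m) (Sum.inr j') (Sum.inr i) = Sum.inr i := by
    intro i h1 h2
    exact Equiv.swap_apply_of_ne_of_ne (fun h => h1 (Sum.inr.inj h)) (fun h => h2 (Sum.inr.inj h))
  have hprod : ∀ F : Fin m → ℂ, ∏ i, F i = F j * (F j' * ∏ i ∈ (Finset.univ.erase j).erase j', F i) := by
    intro F
    rw [← Finset.mul_prod_erase _ _ (Finset.mem_univ j),
      ← Finset.mul_prod_erase (Finset.univ.erase j) F (Finset.mem_erase.2 ⟨hjj.symm, Finset.mem_univ j'⟩)]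
  constructor
  · intro h1 h2
    unfold mixD
    rw [Finset.sum_comm]
    refine Finset.sum_eq_zero fun e' _ => ?_
    refine sum_neg (preE (Equiv.swap (Sum.inr j) (Sum.inr j'))) _ fun e => ?_
    have e1 : Equiv.Perm.sign ((preE (Equiv.swap (Sum.inr j) (Sum.inr j')) e).trans e'.symm) =
        - Equiv.Perm.sign (e.trans e'.symm) := by
      have e2 : ((preE (Equiv.swap (Sum.inr j) (Sum.inr j')) e).trans e'.symm :
          Equiv.Perm (Fin p ⊕ Fin m)) =
          (Equiv.swap (Sum.inr j) (Sum.inr j')).trans (e.trans e'.symm) := by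
        ext s
        simp [preE]
      rw [e2, Equiv.Perm.sign_trans, hsign]
      simp
    have e3 : (fun i => preE (Equiv.swap (Sum.inr j) (Sum.inr j')) e (Sum.inl i)) =
        fun i => e (Sum.inl i) := by
      funext i
      simp only [preE, Equiv.coe_fn_mk, Equiv.trans_apply]
      rw [hinl i]
    have e4 : ∏ i, H i (preE (Equiv.swap (Sum.inr j) (Sum.inr j')) e (Sum.inr i)) (e' (Sum.inr i)) =
        ∏ i, H i (e (Sum.inr i)) (e' (Sum.inr i)) := by
      rw [hprod, hprod, h1, h2]
      have e5 : ∏ i ∈ (Finset.univ.erase j).erase j',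
          H i (preE (Equiv.swap (Sum.inr j) (Sum.inr j')) e (Sum.inr i)) (e' (Sum.inr i)) =
          ∏ i ∈ (Finset.univ.erase j).erase j', H i (e (Sum.inr i)) (e' (Sum.inr i)) := by
        refine Finset.prod_congr rfl fun i hi => ?_
        rw [Finset.mem_erase, Finset.mem_erase] at hi
        simp only [preE, Equiv.coe_fn_mk, Equiv.trans_apply]
        rw [hinr i hi.2.1 hi.1]
      rw [e5]
      simp only [preE, Equiv.coe_fn_mk, Equiv.trans_apply, Equiv.swap_apply_left,
        Equiv.swap_apply_right, out]
      ring
    rw [e1, e3, e4]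
    push_cast
    ring
  · intro h1 h2
    unfold mixD
    refine Finset.sum_eq_zero fun e _ => ?_
    refine sum_neg (preE (Equiv.swap (Sum.inr j) (Sum.inr j'))) _ fun e' => ?_
    have e1 : Equiv.Perm.sign (e.trans (preE (Equiv.swap (Sum.inr j) (Sum.inr j')) e').symm) =
        - Equiv.Perm.sign (e.trans e'.symm) := by
      have e2 : (e.trans (preE (Equiv.swap (Sum.inr j) (Sum.inr j')) e').symm :
          Equiv.Perm (Fin p ⊕ Fin m)) =
          (e.trans e'.symm).trans (Equiv.swap (Sum.inr j) (Sum.inr j')) := by
        ext s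
        simp [preE]
      rw [e2, Equiv.Perm.sign_trans, hsign]
      simp
    have e3 : (fun i => preE (Equiv.swap (Sum.inr j) (Sum.inr j')) e' (Sum.inl i)) =
        fun i => e' (Sum.inl i) := by
      funext i
      simp only [preE, Equiv.coe_fn_mk, Equiv.trans_apply]
      rw [hinl i]
    have e4 : ∏ i, H i (e (Sum.inr i)) (preE (Equiv.swap (Sum.inr j) (Sum.inr j')) e' (Sum.inr i)) =
        ∏ i, H i (e (Sum.inr i)) (e' (Sum.inr i)) := by
      rw [hprod, hprod, h1, h2]
      have e5 : ∏ i ∈ (Finset.univ.erase j).erase j',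
          H i (e (Sum.inr i)) (preE (Equiv.swap (Sum.inr j) (Sum.inr j')) e' (Sum.inr i)) =
          ∏ i ∈ (Finset.univ.erase j).erase j', H i (e (Sum.inr i)) (e' (Sum.inr i)) := by
        refine Finset.prod_congr rfl fun i hi => ?_
        rw [Finset.mem_erase, Finset.mem_erase] at hi
        simp only [preE, Equiv.coe_fn_mk, Equiv.trans_apply]
        rw [hinr i hi.2.1 hi.1]
      rw [e5]
      simp only [preE, Equiv.coe_fn_mk, Equiv.trans_apply, Equiv.swap_apply_left,
        Equiv.swap_apply_right, out]
      ring
    rw [e1, e3, e4]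
    push_cast
    ring

end Pool.Agent.H84.EQ
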