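import Pool.Agent.H92.EQ.TT

/-!
# Logarithmic cut-off functions in the plane (rows TJ and TK of the board of MP_75a732_an)
-/

set_option autoImplicit false

namespace Pool.Agent.H84.EQ

open scoped BigOperators ComplexConjugate ContDiff ComplexOrder Topology RealInnerProductSpace
open MeasureTheory Filter Set
open Pool.Agent.H92.EQ

noncomputable section

/-- the cut-off function of one variable -/
def th (u : ℝ) : ℝ := Real.smoothTransition (2 - u) * Real.smoothTransition (2 + u)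

theorem th_smooth : ContDiff ℝ ∞ th := by
  unfold th
  exact (Real.smoothTransition.contDiff.comp (contDiff_const.sub contDiff_id)).mul
    (Real.smoothTransition.contDiff.comp (contDiff_const.add contDiff_id))

theorem th_nonneg (u : ℝ) : 0 ≤ th u :=
  mul_nonneg (Real.smoothTransition.nonneg _) (Real.smoothTransition.nonneg _)

theorem th_le_one (u : ℝ) : th u ≤ 1 :=
  mul_le_one₀ (Real.smoothTransition.le_one _) (Real.smoothTransition.nonneg _)
    (Real.smoothTransition.le_one _)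

theorem th_one {u : ℝ} (h : |u| ≤ 1) : th u = 1 := by
  rw [abs_le] at h
  unfold th
  rw [Real.smoothTransition.one_of_one_le (by linarith),
    Real.smoothTransition.one_of_one_le (by linarith), one_mul]

theorem th_zero {u : ℝ} (h : 2 ≤ |u|) : th u = 0 := by
  unfold th
  rcases le_abs.1 h with h1 | h1
  · rw [Real.smoothTransition.zero_of_nonpos (by linarith), zero_mul]
  · rw [Real.smoothTransition.zero_of_nonpos (x := 2 + u) (by linarith), mul_zero]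

theorem th_supp : HasCompactSupport th := by
  refine HasCompactSupport.of_support_subset_isCompact (isCompact_Icc (a := (-2 : ℝ)) (b := 2)) ?_
  intro u hu
  by_contra hcon
  apply hu
  apply th_zero
  rw [mem_Icc, not_and_or] at hcon
  rcases hcon with h | h
  · exact (le_of_lt (by linarith)).trans (neg_le_abs u)
  · exact (not_le.1 h).le.trans (le_abs_self u)

/-- the first derivative -/
def th1 : ℝ → ℝ := deriv th

/-- the second derivative -/
def th2 : ℝ → ℝ := deriv th1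

theorem th1_smooth : ContDiff ℝ ∞ th1 := by
  have h : ContDiff ℝ (∞ + 1) th := th_smooth
  exact (contDiff_succ_iff_deriv.1 h).2.2

theorem th_der (u : ℝ) : HasDerivAt th (th1 u) u :=
  (th_smooth.differentiable (by norm_num)).differentiableAt.hasDerivAt

theorem th1_der (u : ℝ) : HasDerivAt th1 (th2 u) u :=
  (th1_smooth.differentiable (by norm_num)).differentiableAt.hasDerivAt

theorem th_bd : ∃ C : ℝ, 0 < C ∧ (∀ u, |th1 u| ≤ C) ∧ ∀ u, |th2 u| ≤ C := by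
  have h2 : ContDiff ℝ ∞ th2 := by
    have h : ContDiff ℝ (∞ + 1) th1 := th1_smooth
    exact (contDiff_succ_iff_deriv.1 h).2.2
  obtain ⟨C1, hC1⟩ := th1_smooth.continuous.bounded_above_of_compact_support
    (by exact th_supp.deriv)
  obtain ⟨C2, hC2⟩ := h2.continuous.bounded_above_of_compact_support
    (by exact HasCompactSupport.deriv th_supp.deriv)
  refine ⟨max C1 C2 + 1, ?_, fun u => ?_, fun u => ?_⟩
  · have := (norm_nonneg _).trans (hC1 0)
    have := this.trans (le_max_left C1 C2)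
    linarith
  · have := (hC1 u).trans (le_max_left C1 C2)
    rw [Real.norm_eq_abs] at this
    linarith
  · have := (hC2 u).trans (le_max_right C1 C2)
    rw [Real.norm_eq_abs] at this
    linarith

theorem th1_zero {u : ℝ} (h : 2 < |u|) : th1 u = 0 := by
  have h1 : th =ᶠ[𝓝 u] fun _ => 0 := by
    have : ∀ᶠ v in 𝓝 u, 2 < |v| := continuous_abs.continuousAt.eventually_const_lt h
    filter_upwards [this] with v hv
    exact th_zero hv.le
  unfold th1
  rw [h1.deriv_eq, deriv_const]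

theorem th2_zero {u : ℝ} (h : 2 < |u|) : th2 u = 0 := by
  have h1 : th1 =ᶠ[𝓝 u] fun _ => 0 := by
    have : ∀ᶠ v in 𝓝 u, 2 < |v| := continuous_abs.continuousAt.eventually_const_lt h
    filter_upwards [this] with v hv
    exact th1_zero hv
  unfold th2
  rw [h1.deriv_eq, deriv_const]

open Classical in
/-- the cut-off function in the plane -/
def fL (t1 : ℂ) (L : ℝ) (t : ℂ) : ℝ :=
  if t = t1 then 0 else th (Real.log ‖t - t1‖ / L)

theorem fL_nonneg (t1 : ℂ) (L : ℝ) (t : ℂ) : 0 ≤ fL t1 L t := by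
  unfold fL
  split_ifs
  · exact le_rfl
  · exact th_nonneg _

theorem fL_le_one (t1 : ℂ) (L : ℝ) (t : ℂ) : fL t1 L t ≤ 1 := by
  unfold fL
  split_ifs
  · exact zero_le_one
  · exact th_le_one _

theorem fL_of_ne {t1 : ℂ} (L : ℝ) {t : ℂ} (h : t ≠ t1) :
    fL t1 L t = th (Real.log ‖t - t1‖ / L) := if_neg h

theorem fL_ev {t1 : ℂ} (L : ℝ) {t : ℂ} (h : t ≠ t1) :
    fL t1 L =ᶠ[𝓝 t] fun s => th (Real.log ‖s - t1‖ / L) := by
  filter_upwards [isOpen_ne.mem_nhds h] with s hs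
  exact fL_of_ne L hs

theorem fL_near (t1 : ℂ) {L : ℝ} (hL : 0 < L) : fL t1 L =ᶠ[𝓝 t1] fun _ => 0 := by
  have : Metric.ball t1 (Real.exp (-(2 * L))) ∈ 𝓝 t1 := Metric.ball_mem_nhds _ (Real.exp_pos _)
  filter_upwards [this] with s hs
  by_cases h : s = t1
  · unfold fL; rw [if_pos h]
  · rw [fL_of_ne L h]
    apply th_zero
    have h1 : 0 < ‖s - t1‖ := norm_pos_iff.2 (sub_ne_zero.2 h)
    rw [Metric.mem_ball, dist_eq_norm] at hs
    have h2 : Real.log ‖s - t1‖ < -(2 * L) := by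
      rw [← Real.log_exp (-(2 * L))]
      exact Real.log_lt_log h1 hs
    have h3 : Real.log ‖s - t1‖ / L ≤ -2 := by
      rw [div_le_iff₀ hL]
      linarith
    exact (by linarith : (2 : ℝ) ≤ -(Real.log ‖s - t1‖ / L)).trans (neg_le_abs _)

theorem fL_far {t1 : ℂ} {L : ℝ} (hL : 0 < L) {t : ℂ} (h : Real.exp (2 * L) ≤ ‖t - t1‖) :
    fL t1 L t = 0 := by
  have h0 : t ≠ t1 := by
    intro h1
    rw [h1, sub_self, norm_zero] at h
    exact absurd h (not_le.2 (Real.exp_pos _))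
  rw [fL_of_ne L h0]
  apply th_zero
  have h2 : 2 * L ≤ Real.log ‖t - t1‖ := by
    rw [← Real.log_exp (2 * L)]
    exact Real.log_le_log (Real.exp_pos _) h
  have h3 : 2 ≤ Real.log ‖t - t1‖ / L := by
    rw [le_div_iff₀ hL]
    exact h2
  exact h3.trans (le_abs_self _)

theorem fL_smooth (t1 : ℂ) {L : ℝ} (hL : 0 < L) : ContDiff ℝ ∞ (fL t1 L) := by
  rw [contDiff_iff_contDiffAt]
  intro t
  by_cases h : t = t1
  · rw [h]
    exact contDiffAt_const.congr_of_eventuallyEq (fL_near t1 hL)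
  · refine ContDiffAt.congr_of_eventuallyEq ?_ (fL_ev L h)
    refine th_smooth.contDiffAt.comp t ?_
    refine ContDiffAt.div_const ?_ L
    have h1 : t - t1 ≠ 0 := sub_ne_zero.2 h
    have h2 : ContDiffAt ℝ ∞ (fun s : ℂ => ‖s - t1‖) t :=
      (contDiffAt_norm ℝ h1).comp t (contDiffAt_id.sub contDiffAt_const)
    exact h2.log (norm_ne_zero_iff.2 h1)

theorem fL_cpt (t1 : ℂ) {L : ℝ} (hL : 0 < L) : HasCompactSupport (fL t1 L) := by
  refine HasCompactSupport.of_support_subset_isCompact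
    (isCompact_closedBall t1 (Real.exp (2 * L))) ?_
  intro t ht
  by_contra hcon
  apply ht
  apply fL_far hL
  rw [Metric.mem_closedBall, dist_eq_norm, not_le] at hcon
  exact hcon.le

theorem fL_tst (t1 : ℂ) {L : ℝ} (hL : 0 < L) : Tst {t1}ᶜ (fL t1 L) := by
  refine ⟨fL_smooth t1 hL, fL_cpt t1 hL, ?_⟩
  intro t ht ht1
  rw [mem_singleton_iff] at ht1
  rw [ht1] at ht
  exact (notMem_tsupport_iff_eventuallyEq.2 (fL_near t1 hL)) ht

/-- the logarithm -/
theorem log_der {t1 t : ℂ} (h : t ≠ t1) :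
    HasFDerivAt (fun s : ℂ => Real.log ‖s - t1‖) ((‖t - t1‖ ^ 2)⁻¹ • innerSL ℝ (t - t1)) t := by
  have h1 : t - t1 ≠ 0 := sub_ne_zero.2 h
  have h2 : HasFDerivAt (fun s : ℂ => s - t1) (ContinuousLinearMap.id ℝ ℂ) t :=
    (hasFDerivAt_id t).sub_const t1
  have h3' : HasFDerivAt (fun x : ℂ => ‖x‖ ^ 2) (2 • innerSL ℝ (t - t1)) (t - t1) :=
    (hasStrictFDerivAt_norm_sq (t - t1)).hasFDerivAt
  have h3 : HasFDerivAt (fun s : ℂ => ‖s - t1‖ ^ 2)
      ((2 • innerSL ℝ (t - t1)).comp (ContinuousLinearMap.id ℝ ℂ)) t :=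
    HasFDerivAt.comp (g := fun x : ℂ => ‖x‖ ^ 2) t h3' h2
  have hn : ‖t - t1‖ ^ 2 ≠ 0 := pow_ne_zero _ (norm_ne_zero_iff.2 h1)
  have h4 := (h3.log hn).const_mul (1 / 2 : ℝ)
  have e1 : (fun s : ℂ => Real.log ‖s - t1‖) = fun s => (1 / 2) * Real.log (‖s - t1‖ ^ 2) := by
    funext s
    rw [Real.log_pow]
    push_cast
    ring
  rw [e1]
  refine h4.congr_fderiv ?_
  ext
  simp
  ring

theorem fL_der {t1 t : ℂ} (L : ℝ) (h : t ≠ t1) (v : ℂ) :
    fderiv ℝ (fL t1 L) t v =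
      th1 (Real.log ‖t - t1‖ / L) / L * (⟪t - t1, v⟫ / ‖t - t1‖ ^ 2) := by
  rw [(fL_ev L h).fderiv_eq]
  have h1 : HasFDerivAt (fun s : ℂ => Real.log ‖s - t1‖ / L)
      (L⁻¹ • ((‖t - t1‖ ^ 2)⁻¹ • innerSL ℝ (t - t1))) t := by
    have := (log_der h).const_mul L⁻¹
    refine this.congr_of_eventuallyEq (Eventually.of_forall fun s => ?_)
    show Real.log ‖s - t1‖ / L = L⁻¹ * Real.log ‖s - t1‖
    rw [div_eq_inv_mul]
  have h2 := (th_der (Real.log ‖t - t1‖ / L)).comp_hasFDerivAt t h1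
  have h3 : fderiv ℝ (fun s : ℂ => th (Real.log ‖s - t1‖ / L)) t =
      th1 (Real.log ‖t - t1‖ / L) • (L⁻¹ • ((‖t - t1‖ ^ 2)⁻¹ • innerSL ℝ (t - t1))) :=
    h2.fderiv
  rw [h3]
  simp only [_root_.smul_apply, smul_eq_mul, innerSL_apply_apply]
  ring

theorem fL_der2 {t1 t : ℂ} (L : ℝ) (h : t ≠ t1) (v : ℂ) :
    fderiv ℝ (fun s => fderiv ℝ (fL t1 L) s v) t v =
      th1 (Real.log ‖t - t1‖ / L) / L *
        ((⟪v, v⟫ * ‖t - t1‖ ^ 2 - 2 * ⟪t - t1, v⟫ ^ 2) / (‖t - t1‖ ^ 2) ^ 2) +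
      th2 (Real.log ‖t - t1‖ / L) / L ^ 2 * (⟪t - t1, v⟫ ^ 2 / (‖t - t1‖ ^ 2) ^ 2) := by
  have h0 : t - t1 ≠ 0 := sub_ne_zero.2 h
  have hn : ‖t - t1‖ ^ 2 ≠ 0 := pow_ne_zero _ (norm_ne_zero_iff.2 h0)
  have hev : (fun s => fderiv ℝ (fL t1 L) s v) =ᶠ[𝓝 t] fun s =>
      th1 (Real.log ‖s - t1‖ / L) / L * (⟪s - t1, v⟫ / ‖s - t1‖ ^ 2) := by
    filter_upwards [isOpen_ne.mem_nhds h] with s hs
    exact fL_der L hs v
  rw [hev.fderiv_eq]
  have h1 : HasFDerivAt (fun s : ℂ => Real.log ‖s - t1‖ / L)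
      (L⁻¹ • ((‖t - t1‖ ^ 2)⁻¹ • innerSL ℝ (t - t1))) t := by
    have := (log_der h).const_mul L⁻¹
    refine this.congr_of_eventuallyEq (Eventually.of_forall fun s => ?_)
    show Real.log ‖s - t1‖ / L = L⁻¹ * Real.log ‖s - t1‖
    rw [div_eq_inv_mul]
  have h2 : HasFDerivAt (fun s : ℂ => th1 (Real.log ‖s - t1‖ / L))
      (th2 (Real.log ‖t - t1‖ / L) • (L⁻¹ • ((‖t - t1‖ ^ 2)⁻¹ • innerSL ℝ (t - t1)))) t :=
    (th1_der (Real.log ‖t - t1‖ / L)).comp_hasFDerivAt t h1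
  have h3 : HasFDerivAt (fun s : ℂ => s - t1) (ContinuousLinearMap.id ℝ ℂ) t :=
    (hasFDerivAt_id t).sub_const t1
  have h4' : HasFDerivAt (fun x : ℂ => ‖x‖ ^ 2) (2 • innerSL ℝ (t - t1)) (t - t1) :=
    (hasStrictFDerivAt_norm_sq (t - t1)).hasFDerivAt
  have h4 : HasFDerivAt (fun s : ℂ => ‖s - t1‖ ^ 2)
      ((2 • innerSL ℝ (t - t1)).comp (ContinuousLinearMap.id ℝ ℂ)) t :=
    HasFDerivAt.comp (g := fun x : ℂ => ‖x‖ ^ 2) t h4' h3
  have h4i : HasFDerivAt (fun s : ℂ => (‖s - t1‖ ^ 2)⁻¹)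
      (-((‖t - t1‖ ^ 2) ^ 2)⁻¹ • (2 • innerSL ℝ (t - t1)).comp (ContinuousLinearMap.id ℝ ℂ)) t :=
    (hasDerivAt_inv hn).comp_hasFDerivAt t h4
  have h5 : HasFDerivAt (fun s : ℂ => ⟪s - t1, v⟫) (innerSL ℝ v) t := by
    have e1 : (fun s : ℂ => ⟪s - t1, v⟫) = fun s => (innerSL ℝ v) (s - t1) := by
      funext s
      rw [innerSL_apply_apply, real_inner_comm]
    rw [e1]
    have := (innerSL ℝ v).hasFDerivAt.comp t h3
    exact this
  have h6 : HasFDerivAt
      (fun s : ℂ => th1 (Real.log ‖s - t1‖ / L) * L⁻¹ * (⟪s - t1, v⟫ * (‖s - t1‖ ^ 2)⁻¹))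
      ((th1 (Real.log ‖t - t1‖ / L) * L⁻¹) •
        (⟪t - t1, v⟫ • -((‖t - t1‖ ^ 2) ^ 2)⁻¹ •
          (2 • (innerSL ℝ) (t - t1)).comp (ContinuousLinearMap.id ℝ ℂ) +
          (‖t - t1‖ ^ 2)⁻¹ • (innerSL ℝ) v) +
      (⟪t - t1, v⟫ * (‖t - t1‖ ^ 2)⁻¹) •
        L⁻¹ • th2 (Real.log ‖t - t1‖ / L) • L⁻¹ • (‖t - t1‖ ^ 2)⁻¹ • (innerSL ℝ) (t - t1)) t :=
    (h2.mul_const L⁻¹).mul (h5.mul h4i)
  have e2 : (fun s : ℂ => th1 (Real.log ‖s - t1‖ / L) / L * (⟪s - t1, v⟫ / ‖s - t1‖ ^ 2)) =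
      fun s => th1 (Real.log ‖s - t1‖ / L) * L⁻¹ * (⟪s - t1, v⟫ * (‖s - t1‖ ^ 2)⁻¹) := by
    funext s
    rw [div_eq_mul_inv, div_eq_mul_inv ⟪s - t1, v⟫]
  rw [e2, h6.fderiv]
  simp only [_root_.add_apply, _root_.smul_apply, smul_eq_mul, innerSL_apply_apply,
    ContinuousLinearMap.comp_apply, ContinuousLinearMap.id_apply, nsmul_eq_mul]
  push_cast
  field_simp
  ring

theorem lapl_fL {t1 t : ℂ} (L : ℝ) (h : t ≠ t1) :
    lapl (fL t1 L) t = th2 (Real.log ‖t - t1‖ / L) / (4 * L ^ 2 * ‖t - t1‖ ^ 2) := by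
  have hn : ‖t - t1‖ ^ 2 ≠ 0 := pow_ne_zero _ (norm_ne_zero_iff.2 (sub_ne_zero.2 h))
  unfold lapl
  rw [fL_der2 L h 1, fL_der2 L h Complex.I]
  have e1 : ⟪t - t1, (1 : ℂ)⟫ = (t - t1).re := by simp [Complex.inner]
  have e2 : ⟪t - t1, Complex.I⟫ = (t - t1).im := by
    simp [Complex.inner]
    ring
  have e3 : ⟪(1 : ℂ), (1 : ℂ)⟫ = 1 := by simp
  have e4 : ⟪Complex.I, Complex.I⟫ = 1 := by simp
  rw [e1, e2, e3, e4]
  obtain ⟨n, hn'⟩ : ∃ n, n = ‖t - t1‖ ^ 2 := ⟨_, rfl⟩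
  have e5 : (t - t1).re ^ 2 + (t - t1).im ^ 2 = n := by
    rw [hn', Complex.sq_norm, Complex.normSq_apply]
    ring
  rw [← hn'] at hn ⊢
  obtain ⟨x, hx⟩ : ∃ x, x = (t - t1).re := ⟨_, rfl⟩
  obtain ⟨y, hy⟩ : ∃ y, y = (t - t1).im := ⟨_, rfl⟩
  rw [← hx, ← hy] at e5 ⊢
  have e6 : (1 * n - 2 * x ^ 2) / n ^ 2 + (1 * n - 2 * y ^ 2) / n ^ 2 = 0 := by
    rw [← add_div]
    have : 1 * n - 2 * x ^ 2 + (1 * n - 2 * y ^ 2) = 0 := by rw [← e5]; ring
    rw [this, zero_div]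
  have e7 : x ^ 2 / n ^ 2 + y ^ 2 / n ^ 2 = 1 / n := by
    rw [← add_div, e5]
    field_simp
  calc (1 : ℝ) / 4 * (th1 (Real.log ‖t - t1‖ / L) / L * ((1 * n - 2 * x ^ 2) / n ^ 2) +
        th2 (Real.log ‖t - t1‖ / L) / L ^ 2 * (x ^ 2 / n ^ 2) +
        (th1 (Real.log ‖t - t1‖ / L) / L * ((1 * n - 2 * y ^ 2) / n ^ 2) +
        th2 (Real.log ‖t - t1‖ / L) / L ^ 2 * (y ^ 2 / n ^ 2))) =
      1 / 4 * (th1 (Real.log ‖t - t1‖ / L) / L *
        ((1 * n - 2 * x ^ 2) / n ^ 2 + (1 * n - 2 * y ^ 2) / n ^ 2) +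
        th2 (Real.log ‖t - t1‖ / L) / L ^ 2 * (x ^ 2 / n ^ 2 + y ^ 2 / n ^ 2)) := by ring
    _ = th2 (Real.log ‖t - t1‖ / L) / (4 * L ^ 2 * n) := by
      rw [e6, e7]
      by_cases hL : L = 0
      · rw [hL]; simp
      · field_simp
        ring

/-- the majorant `K / y ^ 2` on the annulus -/
def ann (L K : ℝ) : ℝ → ℝ :=
  (Icc (Real.exp (-(2 * L))) (Real.exp (2 * L))).indicator fun y => K / y ^ 2

theorem ann_int (t1 : ℂ) {L : ℝ} (hL : 0 < L) (K : ℝ) :
    Integrable (fun t : ℂ => ann L K ‖t - t1‖) ∧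
      ∫ t : ℂ, ann L K ‖t - t1‖ = 8 * Real.pi * K * L := by
  obtain ⟨a, ha⟩ : ∃ a, a = Real.exp (-(2 * L)) := ⟨_, rfl⟩
  obtain ⟨b, hb⟩ : ∃ b, b = Real.exp (2 * L) := ⟨_, rfl⟩
  have ha0 : 0 < a := by rw [ha]; exact Real.exp_pos _
  have hab : a ≤ b := by rw [ha, hb]; exact Real.exp_le_exp.2 (by linarith)
  have e1 : ∀ y ∈ Ioi (0 : ℝ), y ^ (Module.finrank ℝ ℂ - 1) • ann L K y =
      (Icc a b).indicator (fun y => K / y) y := by
    intro y hy
    have hy0 : (0 : ℝ) < y := hy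
    rw [Complex.finrank_real_complex]
    unfold ann
    rw [← ha, ← hb]
    by_cases h : y ∈ Icc a b
    · rw [indicator_of_mem h, indicator_of_mem h, smul_eq_mul, show (2 - 1 : ℕ) = 1 from rfl,
        pow_one]
      field_simp
    · rw [indicator_of_notMem h, indicator_of_notMem h, smul_zero]
  have hcont : ContinuousOn (fun y : ℝ => K / y) (Icc a b) :=
    continuousOn_const.div continuousOn_id fun y hy => (lt_of_lt_of_le ha0 hy.1).ne'
  have hi : Integrable ((Icc a b).indicator fun y : ℝ => K / y) :=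
    (integrable_indicator_iff measurableSet_Icc).2 (hcont.integrableOn_compact isCompact_Icc)
  have hI : Integrable (fun t : ℂ => ann L K ‖t‖) := by
    rw [integrable_fun_norm_addHaar (volume : Measure ℂ) (f := ann L K)]
    rw [integrableOn_congr_fun e1 measurableSet_Ioi]
    exact hi.integrableOn
  refine ⟨hI.comp_sub_right t1, ?_⟩
  rw [integral_sub_right_eq_self (fun t : ℂ => ann L K ‖t‖) t1,
    integral_fun_norm_addHaar (volume : Measure ℂ) (ann L K),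
    setIntegral_congr_fun measurableSet_Ioi e1]
  have e2 : ∫ y in Ioi (0 : ℝ), (Icc a b).indicator (fun y => K / y) y = K * (4 * L) := by
    rw [setIntegral_indicator measurableSet_Icc]
    have e3 : Ioi (0 : ℝ) ∩ Icc a b = Icc a b := by
      rw [inter_eq_right]
      intro y hy
      exact lt_of_lt_of_le ha0 hy.1
    rw [e3, integral_Icc_eq_integral_Ioc, ← intervalIntegral.integral_of_le hab]
    have e4 : ∀ y : ℝ, K / y = K * (1 / y) := fun y => by rw [mul_one_div]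
    simp_rw [e4]
    rw [intervalIntegral.integral_const_mul, integral_one_div_of_pos ha0 (lt_of_lt_of_le ha0 hab),
      hb, ha, ← Real.exp_sub, Real.log_exp]
    ring
  rw [e2, Complex.finrank_real_complex]
  have e5 : (volume : Measure ℂ).real (Metric.ball 0 1) = Real.pi := by
    rw [Measure.real, Complex.volume_ball]
    simp
  rw [e5, nsmul_eq_mul, smul_eq_mul]
  push_cast
  ring

/-- the estimate for the Laplacian of the cut-off function -/
theorem lapl_fL_bd {C : ℝ} (hC : ∀ u, |th2 u| ≤ C) (hC0 : 0 < C) {t1 t : ℂ} (h : t ≠ t1) {L : ℝ}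
    (hL : 0 < L) {x M : ℝ} (hM : 0 ≤ M) (hx : |Real.log ‖t - t1‖| ≤ 2 * L → |x| ≤ M) :
    |lapl (fL t1 L) t * x| ≤ ann L (M * C / (4 * L ^ 2)) ‖t - t1‖ := by
  have hn : 0 < ‖t - t1‖ := norm_pos_iff.2 (sub_ne_zero.2 h)
  rw [lapl_fL L h]
  by_cases hlog : |Real.log ‖t - t1‖| ≤ 2 * L
  · have hmem : ‖t - t1‖ ∈ Icc (Real.exp (-(2 * L))) (Real.exp (2 * L)) := by
      rw [abs_le] at hlog
      refine ⟨?_, ?_⟩
      · rw [← Real.exp_log hn]
        exact Real.exp_le_exp.2 hlog.1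
      · rw [← Real.exp_log hn]
        exact Real.exp_le_exp.2 hlog.2
    unfold ann
    rw [indicator_of_mem hmem, abs_mul, abs_div, abs_of_pos (by positivity :
      (0 : ℝ) < 4 * L ^ 2 * ‖t - t1‖ ^ 2)]
    calc |th2 (Real.log ‖t - t1‖ / L)| / (4 * L ^ 2 * ‖t - t1‖ ^ 2) * |x| ≤
        C / (4 * L ^ 2 * ‖t - t1‖ ^ 2) * M := by
          apply mul_le_mul _ (hx hlog) (abs_nonneg _) (by positivity)
          exact div_le_div_of_nonneg_right (hC _) (by positivity)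
      _ = M * C / (4 * L ^ 2) / ‖t - t1‖ ^ 2 := by
        field_simp
  · have h2 : 2 < |Real.log ‖t - t1‖ / L| := by
      rw [abs_div, abs_of_pos hL, lt_div_iff₀ hL]
      exact not_le.1 hlog
    rw [th2_zero h2, zero_div, zero_mul, abs_zero]
    unfold ann
    apply indicator_nonneg
    intro y _
    positivity

/-- the integral against the Laplacian of the cut-off function -/
theorem int_lapl_fL {C : ℝ} (hC : ∀ u, |th2 u| ≤ C) (hC0 : 0 < C) (t1 : ℂ) {L : ℝ}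
    (hL : 0 < L) {G : ℂ → ℝ} {M : ℝ} (hM : 0 ≤ M)
    (hG : ∀ t, t ≠ t1 → |Real.log ‖t - t1‖| ≤ 2 * L → |G t| ≤ M) :
    |∫ t, lapl (fL t1 L) t * G t| ≤ 2 * Real.pi * C * M / L := by
  have h1 := ann_int t1 hL (M * C / (4 * L ^ 2))
  have h2 : ‖∫ t, lapl (fL t1 L) t * G t‖ ≤ ∫ t : ℂ, ann L (M * C / (4 * L ^ 2)) ‖t - t1‖ := by
    refine norm_integral_le_of_norm_le h1.1 ?_
    have h3 : ∀ᵐ t : ℂ, t ≠ t1 := by
      rw [ae_iff]
      simp
    filter_upwards [h3] with t ht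
    rw [Real.norm_eq_abs]
    exact lapl_fL_bd hC hC0 ht hL hM (hG t ht)
  rw [h1.2, Real.norm_eq_abs] at h2
  refine h2.trans (le_of_eq ?_)
  field_simp
  ring

/-- the cut-off functions converge -/
theorem fL_lim {t1 t : ℂ} (h : t ≠ t1) :
    Tendsto (fun n : ℕ => fL t1 ((n : ℝ) + 1) t) atTop (𝓝 1) := by
  refine tendsto_const_nhds.congr' ?_
  obtain ⟨n0, hn0⟩ := exists_nat_ge |Real.log ‖t - t1‖|
  filter_upwards [eventually_ge_atTop n0] with n hn
  rw [fL_of_ne _ h, th_one]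
  have h1 : (0 : ℝ) < (n : ℝ) + 1 := by positivity
  rw [abs_div, abs_of_pos h1, div_le_one h1]
  have : (n0 : ℝ) ≤ n := by exact_mod_cast hn
  linarith

theorem ae_ne (t1 : ℂ) : ∀ᵐ t : ℂ, t ≠ t1 := by
  rw [ae_iff]
  simp

/-- a function which is continuous away from a point is measurable -/
theorem meas_off {t1 : ℂ} {F : ℂ → ℝ} (hF : ContinuousOn F {t1}ᶜ) :
    AEStronglyMeasurable F := by
  have h1 : AEStronglyMeasurable F ((volume : Measure ℂ).restrict {t1}ᶜ) :=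
    hF.aestronglyMeasurable isOpen_compl_singleton.measurableSet
  have h2 : (volume : Measure ℂ).restrict {t1}ᶜ = volume := restrict_compl_singleton t1
  rw [h2] at h1
  exact h1

/-- products of test functions and functions which are continuous away from a point -/
theorem int_tst {t1 : ℂ} {f F : ℂ → ℝ} (hf : Tst {t1}ᶜ f) (hF : ContinuousOn F {t1}ᶜ) :
    Integrable fun t => f t * F t := by
  have hc : Continuous fun t => f t * F t := by
    rw [continuous_iff_continuousAt]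
    intro t
    by_cases h : t = t1
    · have h1 : t1 ∉ tsupport f := fun h2 => hf.sub h2 rfl
      have h2 : (fun t => f t * F t) =ᶠ[𝓝 t] fun _ => 0 := by
        rw [h]
        filter_upwards [notMem_tsupport_iff_eventuallyEq.1 h1] with s hs
        rw [hs]
        simp
      exact continuousAt_const.congr h2.symm
    · exact hf.smooth.continuous.continuousAt.mul
        (hF.continuousAt (isOpen_compl_singleton.mem_nhds h))
  exact hc.integrable_of_hasCompactSupport hf.cpt.mul_right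

end

end Pool.Agent.H84.EQ
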