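import Pool.Agent.H84.EQ.FL

/-!
# Rows TJ and TK of the board of MP_75a732_an
-/

set_option autoImplicit false

namespace Pool.Agent.H84.EQ

open scoped BigOperators ComplexConjugate ContDiff ComplexOrder Topology RealInnerProductSpace
open MeasureTheory Filter Set
open Pool.Agent.H92.EQ

theorem pf_TJ : T_TJ := by
  obtain ⟨C, hC0, -, hC2⟩ := th_bd
  refine ⟨4 * Real.pi * C, by positivity, ?_⟩
  intro t1 F m A B hA hB hF hm hm0 hFb hW
  have hpi := Real.pi_pos
  have hkey : ∀ n : ℕ, Integrable (fun t => fL t1 ((n : ℝ) + 1) t * m t) ∧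
      ∫ t, fL t1 ((n : ℝ) + 1) t * m t ≤ 4 * Real.pi * C * A + 2 * Real.pi * C * B / ((n : ℝ) + 1) := by
    intro n
    have hL : (0 : ℝ) < (n : ℝ) + 1 := by positivity
    refine ⟨int_tst (fL_tst t1 hL) hm, ?_⟩
    rw [← hW _ (fL_tst t1 hL)]
    have h1 := int_lapl_fL hC2 hC0 t1 hL (G := F) (M := A * (2 * ((n : ℝ) + 1)) + B)
      (by positivity) (fun t ht hlog => (hFb t ht).trans (by
        have := mul_le_mul_of_nonneg_left hlog hA
        linarith))
    refine (le_abs_self _).trans (h1.trans (le_of_eq ?_))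
    field_simp
    ring
  have hae := ae_ne t1
  have hmeas := meas_off hm
  have hfat : ∫⁻ t, ENNReal.ofReal (m t) ≤ ENNReal.ofReal (4 * Real.pi * C * A) := by
    have h1 : ∫⁻ t, ENNReal.ofReal (m t) = ∫⁻ t, liminf (fun n : ℕ =>
        ENNReal.ofReal (fL t1 ((n : ℝ) + 1) t * m t)) atTop := by
      refine lintegral_congr_ae ?_
      filter_upwards [hae] with t ht
      have h2 : Tendsto (fun n : ℕ => ENNReal.ofReal (fL t1 ((n : ℝ) + 1) t * m t)) atTop
          (𝓝 (ENNReal.ofReal (m t))) := by
        refine (ENNReal.continuous_ofReal.tendsto _).comp ?_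
        have := (fL_lim ht).mul_const (m t)
        rw [one_mul] at this
        exact this
      exact h2.liminf_eq.symm
    rw [h1]
    refine (lintegral_liminf_le' fun n => ?_).trans ?_
    · exact (hkey n).1.aestronglyMeasurable.aemeasurable.ennreal_ofReal
    · have h3 : ∀ n : ℕ, ∫⁻ t, ENNReal.ofReal (fL t1 ((n : ℝ) + 1) t * m t) ≤
          ENNReal.ofReal (4 * Real.pi * C * A + 2 * Real.pi * C * B / ((n : ℝ) + 1)) := by
        intro n
        rw [← ofReal_integral_eq_lintegral_ofReal (hkey n).1]
        · exact ENNReal.ofReal_le_ofReal (hkey n).2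
        · filter_upwards [hae] with t ht
          exact mul_nonneg (fL_nonneg _ _ _) (hm0 t ht)
      refine (liminf_le_liminf (Eventually.of_forall h3)).trans ?_
      have h4 : Tendsto (fun n : ℕ => ENNReal.ofReal (4 * Real.pi * C * A +
          2 * Real.pi * C * B / ((n : ℝ) + 1))) atTop (𝓝 (ENNReal.ofReal (4 * Real.pi * C * A))) := by
        refine (ENNReal.continuous_ofReal.tendsto _).comp ?_
        have h5 : Tendsto (fun n : ℕ => 2 * Real.pi * C * B / ((n : ℝ) + 1)) atTop (𝓝 0) := by
          have := (tendsto_one_div_add_atTop_nhds_zero_nat (𝕜 := ℝ)).const_mul (2 * Real.pi * C * B)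
          rw [mul_zero] at this
          refine this.congr fun n => ?_
          rw [mul_one_div]
        have := h5.const_add (4 * Real.pi * C * A)
        rw [add_zero] at this
        exact this
      rw [h4.liminf_eq]
  have hnn : 0 ≤ᵐ[volume] m := by
    filter_upwards [hae] with t ht
    exact hm0 t ht
  refine ⟨⟨hmeas, ?_⟩, ?_⟩
  · rw [hasFiniteIntegral_iff_ofReal hnn]
    exact lt_of_le_of_lt hfat ENNReal.ofReal_lt_top
  · rw [integral_eq_lintegral_of_nonneg_ae hnn hmeas]
    refine ENNReal.toReal_le_of_le_ofReal (by positivity) hfat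

end Pool.Agent.H84.EQ
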