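import Pool.Agent.H84.EQ.FL

/-!
# Row TK of the board of MP_75a732_an
-/

set_option autoImplicit false

namespace Pool.Agent.H84.EQ

open scoped BigOperators ComplexConjugate ContDiff ComplexOrder Topology RealInnerProductSpace
open MeasureTheory Filter Set
open Pool.Agent.H92.EQ

/-- the second derivative of a product in one direction -/
theorem der2_mul {ψ f : ℂ → ℝ} (hψ : ContDiff ℝ ∞ ψ) (hf : ContDiff ℝ ∞ f) (t v : ℂ) :
    fderiv ℝ (fun s => fderiv ℝ (fun r => ψ r * f r) s v) t v =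
      ψ t * fderiv ℝ (fun s => fderiv ℝ f s v) t v + f t * fderiv ℝ (fun s => fderiv ℝ ψ s v) t v +
        2 * (fderiv ℝ ψ t v * fderiv ℝ f t v) := by
  have dψ : Differentiable ℝ ψ := hψ.differentiable (by norm_num)
  have df : Differentiable ℝ f := hf.differentiable (by norm_num)
  have dψ' : ContDiff ℝ ∞ (fun s => fderiv ℝ ψ s v) :=
    ((contDiff_infty_iff_fderiv.1 hψ).2).clm_apply contDiff_const
  have df' : ContDiff ℝ ∞ (fun s => fderiv ℝ f s v) :=
    ((contDiff_infty_iff_fderiv.1 hf).2).clm_apply contDiff_const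
  have e1 : (fun s => fderiv ℝ (fun r => ψ r * f r) s v) =
      fun s => ψ s * fderiv ℝ f s v + f s * fderiv ℝ ψ s v := by
    funext s
    have h1 : HasFDerivAt (fun r => ψ r * f r) (ψ s • fderiv ℝ f s + f s • fderiv ℝ ψ s) s :=
      (dψ s).hasFDerivAt.mul (df s).hasFDerivAt
    rw [h1.fderiv]
    simp only [_root_.add_apply, _root_.smul_apply, smul_eq_mul]
  rw [e1]
  have h2 : HasFDerivAt (fun s => ψ s * fderiv ℝ f s v)
      (ψ t • fderiv ℝ (fun s => fderiv ℝ f s v) t + fderiv ℝ f t v • fderiv ℝ ψ t) t :=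
    (dψ t).hasFDerivAt.mul ((df'.differentiable (by norm_num)) t).hasFDerivAt
  have h3 : HasFDerivAt (fun s => f s * fderiv ℝ ψ s v)
      (f t • fderiv ℝ (fun s => fderiv ℝ ψ s v) t + fderiv ℝ ψ t v • fderiv ℝ f t) t :=
    (df t).hasFDerivAt.mul ((dψ'.differentiable (by norm_num)) t).hasFDerivAt
  have h4 : HasFDerivAt (fun s => ψ s * fderiv ℝ f s v + f s * fderiv ℝ ψ s v)
      ((ψ t • fderiv ℝ (fun s => fderiv ℝ f s v) t + fderiv ℝ f t v • fderiv ℝ ψ t) +
      (f t • fderiv ℝ (fun s => fderiv ℝ ψ s v) t + fderiv ℝ ψ t v • fderiv ℝ f t)) t := h2.add h3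
  rw [h4.fderiv]
  simp only [_root_.add_apply, _root_.smul_apply, smul_eq_mul]
  ring

theorem lapl_mul {ψ f : ℂ → ℝ} (hψ : ContDiff ℝ ∞ ψ) (hf : ContDiff ℝ ∞ f) (t : ℂ) :
    lapl (fun r => ψ r * f r) t = ψ t * lapl f t + f t * lapl ψ t +
      (1 / 2) * (fderiv ℝ ψ t 1 * fderiv ℝ f t 1 +
        fderiv ℝ ψ t Complex.I * fderiv ℝ f t Complex.I) := by
  unfold lapl
  rw [der2_mul hψ hf, der2_mul hψ hf]
  ring

/-- the Laplacian of a smooth function is continuous -/
theorem lapl_cont {f : ℂ → ℝ} (hf : ContDiff ℝ ∞ f) : Continuous (lapl f) := by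
  have h : ∀ v : ℂ, Continuous fun t => fderiv ℝ (fun s => fderiv ℝ f s v) t v := by
    intro v
    have df' : ContDiff ℝ ∞ (fun s => fderiv ℝ f s v) :=
      ((contDiff_infty_iff_fderiv.1 hf).2).clm_apply contDiff_const
    exact (((contDiff_infty_iff_fderiv.1 df').2).clm_apply contDiff_const).continuous
  unfold lapl
  exact continuous_const.mul ((h 1).add (h Complex.I))

/-- the integral of `1 / |t|` over the unit disc -/
theorem inv_int (t1 : ℂ) : Integrable (fun t : ℂ =>
    (Iic (1 : ℝ)).indicator (fun y => y⁻¹) ‖t - t1‖) := by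
  have h : Integrable (fun t : ℂ => (Iic (1 : ℝ)).indicator (fun y => y⁻¹) ‖t‖) := by
    rw [integrable_fun_norm_addHaar (volume : Measure ℂ)
      (f := (Iic (1 : ℝ)).indicator (fun y => y⁻¹))]
    have e1 : ∀ y ∈ Ioi (0 : ℝ), y ^ (Module.finrank ℝ ℂ - 1) •
        (Iic (1 : ℝ)).indicator (fun y => y⁻¹) y = (Icc (0 : ℝ) 1).indicator (fun _ => 1) y := by
      intro y hy
      have hy0 : (0 : ℝ) < y := hy
      rw [Complex.finrank_real_complex]
      by_cases h : y ≤ 1
      · rw [indicator_of_mem (show y ∈ Iic (1 : ℝ) from h),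
          indicator_of_mem (show y ∈ Icc (0 : ℝ) 1 from ⟨hy0.le, h⟩), smul_eq_mul,
          show (2 - 1 : ℕ) = 1 from rfl, pow_one]
        field_simp
      · rw [indicator_of_notMem (show y ∉ Iic (1 : ℝ) from h),
          indicator_of_notMem (show y ∉ Icc (0 : ℝ) 1 from fun h' => h h'.2), smul_zero]
    rw [integrableOn_congr_fun e1 measurableSet_Ioi]
    have h2 : Integrable ((Icc (0 : ℝ) 1).indicator (fun _ => (1 : ℝ))) :=
      (integrable_indicator_iff measurableSet_Icc).2
        (continuousOn_const.integrableOn_compact isCompact_Icc)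
    exact h2.integrableOn
  exact h.comp_sub_right t1

/-- the mixed term -/
theorem grad_bd {C : ℝ} (hC : ∀ u, |th1 u| ≤ C) (hC0 : 0 < C) {t1 t : ℂ} (h : t ≠ t1) {L : ℝ}
    (hL : 0 < L) {ψ : ℂ → ℝ} {K' : ℝ} (hK' : ∀ t, ‖fderiv ℝ ψ t‖ ≤ K') :
    |fderiv ℝ ψ t 1 * fderiv ℝ (fL t1 L) t 1 +
      fderiv ℝ ψ t Complex.I * fderiv ℝ (fL t1 L) t Complex.I| ≤
      2 * C / L * (K' * (Iic (1 : ℝ)).indicator (fun y => y⁻¹) ‖t - t1‖ + ‖fderiv ℝ ψ t‖) := by
  have hn : 0 < ‖t - t1‖ := norm_pos_iff.2 (sub_ne_zero.2 h)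
  have hd : ∀ v : ℂ, ‖v‖ = 1 → |fderiv ℝ (fL t1 L) t v| ≤ C / L * ‖t - t1‖⁻¹ := by
    intro v hv
    rw [fL_der L h v, abs_mul, abs_div, abs_div, abs_of_pos hL, abs_of_pos (by positivity :
      (0 : ℝ) < ‖t - t1‖ ^ 2)]
    have h1 : |⟪t - t1, v⟫| ≤ ‖t - t1‖ := by
      have := abs_real_inner_le_norm (t - t1) v
      rw [hv, mul_one] at this
      exact this
    calc |th1 (Real.log ‖t - t1‖ / L)| / L * (|⟪t - t1, v⟫| / ‖t - t1‖ ^ 2) ≤
        C / L * (‖t - t1‖ / ‖t - t1‖ ^ 2) := by
          apply mul_le_mul (div_le_div_of_nonneg_right (hC _) hL.le)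
            (div_le_div_of_nonneg_right h1 (by positivity)) (by positivity) (by positivity)
      _ = C / L * ‖t - t1‖⁻¹ := by
          congr 1
          field_simp
  have hψ : ∀ v : ℂ, ‖v‖ = 1 → |fderiv ℝ ψ t v| ≤ ‖fderiv ℝ ψ t‖ := by
    intro v hv
    have := (fderiv ℝ ψ t).le_opNorm v
    rw [hv, mul_one] at this
    exact this
  have h1 : ‖(1 : ℂ)‖ = 1 := norm_one
  have hI : ‖Complex.I‖ = 1 := Complex.norm_I
  have hsum : |fderiv ℝ ψ t 1 * fderiv ℝ (fL t1 L) t 1 +
      fderiv ℝ ψ t Complex.I * fderiv ℝ (fL t1 L) t Complex.I| ≤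
      2 * C / L * (‖fderiv ℝ ψ t‖ * ‖t - t1‖⁻¹) := by
    refine (abs_add_le _ _).trans ?_
    rw [abs_mul, abs_mul]
    have a1 := mul_le_mul (hψ 1 h1) (hd 1 h1) (abs_nonneg _) (norm_nonneg _)
    have a2 := mul_le_mul (hψ Complex.I hI) (hd Complex.I hI) (abs_nonneg _) (norm_nonneg _)
    refine (add_le_add a1 a2).trans (le_of_eq ?_)
    ring
  refine hsum.trans (mul_le_mul_of_nonneg_left ?_ (by positivity))
  by_cases hle : ‖t - t1‖ ≤ 1
  · rw [indicator_of_mem (show ‖t - t1‖ ∈ Iic (1 : ℝ) from hle)]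
    have := mul_le_mul_of_nonneg_right (hK' t) (inv_nonneg.2 hn.le)
    have h3 := norm_nonneg (fderiv ℝ ψ t)
    linarith
  · rw [indicator_of_notMem (show ‖t - t1‖ ∉ Iic (1 : ℝ) from hle), mul_zero, zero_add]
    have h3 : ‖t - t1‖⁻¹ ≤ 1 := inv_le_one_of_one_le₀ (not_le.1 hle).le
    exact mul_le_of_le_one_right (norm_nonneg _) h3

theorem pf_TK : T_TK := by
  obtain ⟨C, hC0, hC1, hC2⟩ := th_bd
  intro t1 a m m' ψ B M K K' ha haB hmm hm hm' him him' hM hM' hW hψ hK hK' hi1 hi2
  have hpi := Real.pi_pos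
  have hae := ae_ne t1
  have hB : 0 ≤ B := (abs_nonneg _).trans (haB (t1 + 1) (by simp))
  have hK0 : 0 ≤ K := (abs_nonneg _).trans (hK 0)
  have hK0' : 0 ≤ K' := (norm_nonneg _).trans (hK' 0)
  obtain ⟨G, hG⟩ : ∃ G : ℂ → ℝ, G = fun t => K' * (Iic (1 : ℝ)).indicator (fun y => y⁻¹) ‖t - t1‖ +
    ‖fderiv ℝ ψ t‖ := ⟨_, rfl⟩
  have hGi : Integrable G := by
    rw [hG]
    exact ((inv_int t1).const_mul K').add hi1
  have hameas := meas_off ha
  -- the estimate for each cut-off function
  have hkey : ∀ n : ℕ, |∫ t, fL t1 ((n : ℝ) + 1) t * (lapl ψ t * a t)| ≤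
      2 * K * M + (2 * Real.pi * C * (K * B) + C * B * ∫ t, G t) / ((n : ℝ) + 1) := by
    intro n
    obtain ⟨L, hLd⟩ : ∃ L : ℝ, L = (n : ℝ) + 1 := ⟨_, rfl⟩
    rw [← hLd]
    have hL : 0 < L := by rw [hLd]; positivity
    obtain ⟨f, hf⟩ : ∃ f, f = fL t1 L := ⟨_, rfl⟩
    have hfs : ContDiff ℝ ∞ f := by rw [hf]; exact fL_smooth t1 hL
    have hft : Tst {t1}ᶜ f := by rw [hf]; exact fL_tst t1 hL
    have hft2 : Tst {t1}ᶜ (fun t => ψ t * f t) := by
      refine ⟨hψ.mul hfs, hft.cpt.mul_left, ?_⟩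
      exact (closure_mono (Function.support_mul_subset_right ψ f)).trans hft.sub
    have hw := hW _ hft2
    -- the right side
    have hR : |∫ t, ψ t * f t * (m t - m' t)| ≤ 2 * K * M := by
      have h1 : ‖∫ t, ψ t * f t * (m t - m' t)‖ ≤ ∫ t, K * (m t + m' t) := by
        refine norm_integral_le_of_norm_le ((him.add him').const_mul K) ?_
        filter_upwards [hae] with t ht
        obtain ⟨p1, p2⟩ := hmm t ht
        have p3 : |f t| ≤ 1 := by
          rw [hf, abs_of_nonneg (fL_nonneg _ _ _)]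
          exact fL_le_one _ _ _
        have p4 : |m t - m' t| ≤ m t + m' t := by
          rw [abs_le]
          constructor <;> linarith
        rw [Real.norm_eq_abs, abs_mul, abs_mul]
        calc |ψ t| * |f t| * |m t - m' t| ≤ K * 1 * (m t + m' t) := by
              apply mul_le_mul _ p4 (abs_nonneg _) (by linarith)
              exact mul_le_mul (hK t) p3 (abs_nonneg _) hK0
          _ = K * (m t + m' t) := by ring
      rw [integral_const_mul, integral_add him him', Real.norm_eq_abs] at h1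
      refine h1.trans ?_
      have := mul_le_mul_of_nonneg_left (add_le_add hM hM') hK0
      linarith
    -- the left side
    have hI1 : Integrable (fun t => ψ t * lapl f t * a t) := by
      have h1 := ann_int t1 hL (K * B * C / (4 * L ^ 2))
      refine h1.1.mono' ?_ ?_
      · exact ((hψ.continuous.mul (lapl_cont hfs)).aestronglyMeasurable).mul hameas
      · filter_upwards [hae] with t ht
        rw [Real.norm_eq_abs]
        have h2 := lapl_fL_bd hC2 hC0 ht hL (x := ψ t * a t) (M := K * B) (by positivity)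
          (fun _ => by
            rw [abs_mul]
            exact mul_le_mul (hK t) (haB t ht) (abs_nonneg _) hK0)
        rw [← hf] at h2
        have e : ψ t * lapl f t * a t = lapl f t * (ψ t * a t) := by ring
        rw [e]
        exact h2
    have hI2 : Integrable (fun t => f t * (lapl ψ t * a t)) := by
      refine (hi2.norm.const_mul B).mono' ?_ ?_
      · exact (hfs.continuous.aestronglyMeasurable).mul
          (((lapl_cont hψ).aestronglyMeasurable).mul hameas)
      · filter_upwards [hae] with t ht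
        have p3 : |f t| ≤ 1 := by
          rw [hf, abs_of_nonneg (fL_nonneg _ _ _)]
          exact fL_le_one _ _ _
        rw [Real.norm_eq_abs, abs_mul, abs_mul, Real.norm_eq_abs]
        calc |f t| * (|lapl ψ t| * |a t|) ≤ 1 * (|lapl ψ t| * B) := by
              apply mul_le_mul p3 _ (by positivity) zero_le_one
              exact mul_le_mul_of_nonneg_left (haB t ht) (abs_nonneg _)
          _ = B * |lapl ψ t| := by ring
    have hgrb : ∀ᵐ t : ℂ, |(fderiv ℝ ψ t 1 * fderiv ℝ f t 1 +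
        fderiv ℝ ψ t Complex.I * fderiv ℝ f t Complex.I) * a t| ≤ 2 * C / L * B * G t := by
      filter_upwards [hae] with t ht
      have h1 := grad_bd hC1 hC0 ht hL hK' (ψ := ψ)
      rw [← hf] at h1
      rw [abs_mul, hG]
      calc _ ≤ (2 * C / L * (K' * (Iic (1 : ℝ)).indicator (fun y => y⁻¹) ‖t - t1‖ +
            ‖fderiv ℝ ψ t‖)) * B := mul_le_mul h1 (haB t ht) (abs_nonneg _)
              ((abs_nonneg _).trans h1)
        _ = _ := by ring
    have hgrm : AEStronglyMeasurable (fun t => (fderiv ℝ ψ t 1 * fderiv ℝ f t 1 +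
        fderiv ℝ ψ t Complex.I * fderiv ℝ f t Complex.I) * a t) := by
      have h1 : ∀ (g : ℂ → ℝ) (v : ℂ), ContDiff ℝ ∞ g → Continuous fun t => fderiv ℝ g t v := by
        intro g v hg
        exact (((contDiff_infty_iff_fderiv.1 hg).2).clm_apply contDiff_const).continuous
      exact ((((h1 ψ 1 hψ).mul (h1 f 1 hfs)).add
        ((h1 ψ Complex.I hψ).mul (h1 f Complex.I hfs))).aestronglyMeasurable).mul hameas
    have hI3 : Integrable (fun t => (fderiv ℝ ψ t 1 * fderiv ℝ f t 1 +
        fderiv ℝ ψ t Complex.I * fderiv ℝ f t Complex.I) * a t) := by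
      refine (hGi.const_mul (2 * C / L * B)).mono' hgrm ?_
      filter_upwards [hgrb] with t ht
      rw [Real.norm_eq_abs]
      exact ht
    have hsplit : ∫ t, lapl (fun t => ψ t * f t) t * a t =
        (∫ t, ψ t * lapl f t * a t) + (∫ t, f t * (lapl ψ t * a t)) +
        (1 / 2) * ∫ t, (fderiv ℝ ψ t 1 * fderiv ℝ f t 1 +
        fderiv ℝ ψ t Complex.I * fderiv ℝ f t Complex.I) * a t := by
      have hI12 : Integrable (fun t => ψ t * lapl f t * a t + f t * (lapl ψ t * a t)) :=
        hI1.add hI2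
      rw [← integral_const_mul, ← integral_add hI1 hI2, ← integral_add hI12
        (hI3.const_mul (1 / 2))]
      refine integral_congr_ae (Eventually.of_forall fun t => ?_)
      show lapl (fun t => ψ t * f t) t * a t = _
      rw [lapl_mul hψ hfs]
      ring
    have hb1 : |∫ t, ψ t * lapl f t * a t| ≤ 2 * Real.pi * C * (K * B) / L := by
      have h1 := int_lapl_fL hC2 hC0 t1 hL (G := fun t => ψ t * a t) (M := K * B) (by positivity)
        (fun t ht _ => by
          rw [abs_mul]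
          exact mul_le_mul (hK t) (haB t ht) (abs_nonneg _) hK0)
      rw [← hf] at h1
      refine (le_of_eq ?_).trans h1
      congr 2
      funext t
      ring
    have hb3 : |∫ t, (fderiv ℝ ψ t 1 * fderiv ℝ f t 1 +
        fderiv ℝ ψ t Complex.I * fderiv ℝ f t Complex.I) * a t| ≤ 2 * C / L * B * ∫ t, G t := by
      have h1 : ‖∫ t, (fderiv ℝ ψ t 1 * fderiv ℝ f t 1 +
        fderiv ℝ ψ t Complex.I * fderiv ℝ f t Complex.I) * a t‖ ≤ ∫ t, 2 * C / L * B * G t := by
        refine norm_integral_le_of_norm_le (hGi.const_mul _) ?_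
        filter_upwards [hgrb] with t ht
        rw [Real.norm_eq_abs]
        exact ht
      rw [integral_const_mul, Real.norm_eq_abs] at h1
      exact h1
    rw [hsplit] at hw
    have hfin : ∫ t, f t * (lapl ψ t * a t) = (∫ t, ψ t * f t * (m t - m' t)) -
        (∫ t, ψ t * lapl f t * a t) - (1 / 2) * ∫ t, (fderiv ℝ ψ t 1 * fderiv ℝ f t 1 +
        fderiv ℝ ψ t Complex.I * fderiv ℝ f t Complex.I) * a t := by
      linarith
    rw [hf] at hfin
    rw [hfin]
    rw [← hf]
    rw [abs_le] at hR hb1 hb3 ⊢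
    have e : (2 * Real.pi * C * (K * B) + C * B * ∫ t, G t) / L =
        2 * Real.pi * C * (K * B) / L + 1 / 2 * (2 * C / L * B * ∫ t, G t) := by
      field_simp
    rw [e]
    constructor <;> linarith
  -- the limit
  have hlim : Tendsto (fun n : ℕ => ∫ t, fL t1 ((n : ℝ) + 1) t * (lapl ψ t * a t)) atTop
      (𝓝 (∫ t, lapl ψ t * a t)) := by
    refine tendsto_integral_of_dominated_convergence (fun t => B * ‖lapl ψ t‖) ?_
      (hi2.norm.const_mul B) ?_ ?_
    · intro n
      have hL : (0 : ℝ) < (n : ℝ) + 1 := by positivity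
      exact ((fL_smooth t1 hL).continuous.aestronglyMeasurable).mul
        (((lapl_cont hψ).aestronglyMeasurable).mul hameas)
    · intro n
      filter_upwards [hae] with t ht
      have p3 : |fL t1 ((n : ℝ) + 1) t| ≤ 1 := by
        rw [abs_of_nonneg (fL_nonneg _ _ _)]
        exact fL_le_one _ _ _
      rw [Real.norm_eq_abs, abs_mul, abs_mul, Real.norm_eq_abs]
      calc |fL t1 ((n : ℝ) + 1) t| * (|lapl ψ t| * |a t|) ≤ 1 * (|lapl ψ t| * B) := by
            apply mul_le_mul p3 _ (by positivity) zero_le_one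
            exact mul_le_mul_of_nonneg_left (haB t ht) (abs_nonneg _)
        _ = B * |lapl ψ t| := by ring
    · filter_upwards [hae] with t ht
      have := (fL_lim ht).mul_const (lapl ψ t * a t)
      rw [one_mul] at this
      exact this
  have hlim2 : Tendsto (fun n : ℕ => 2 * K * M +
      (2 * Real.pi * C * (K * B) + C * B * ∫ t, G t) / ((n : ℝ) + 1)) atTop (𝓝 (2 * K * M)) := by
    have h5 := (tendsto_one_div_add_atTop_nhds_zero_nat (𝕜 := ℝ)).const_mul
      (2 * Real.pi * C * (K * B) + C * B * ∫ t, G t)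
    rw [mul_zero] at h5
    have := h5.const_add (2 * K * M)
    rw [add_zero] at this
    refine this.congr fun n => ?_
    rw [mul_one_div]
  exact le_of_tendsto_of_tendsto' hlim.abs hlim2 hkey

end Pool.Agent.H84.EQ
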